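import Mathlib

/-!
# Cross-intersecting sequences of pairs of projective subspaces

Attach to a subspace `U` of `V = F ^ (n + 1)` its exterior product `w U` in the exterior algebra.
Then `w U * w W` vanishes exactly when `U` and `W` meet nontrivially, so a skew sequence of pairs
gives linearly independent elements `w (A i)`: in a vanishing combination, multiply by `w (B j)`
for the largest index `j` with nonzero coefficient.  Adding the pairs `(V, 0)` in front and
`(0, V)` at the end of the sequence gives `m + 2 ≤ 2 ^ (n + 1)`.
-/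

set_option autoImplicit false

namespace Pool.Agent.Results.MP_59f694_co.CrossIntersecting

universe u v

variable {F : Type u} [Field F] {V : Type v} [AddCommGroup V] [Module F V] [FiniteDimensional F V]

/-- a basis of a subspace, as a family of vectors of the ambient space -/
noncomputable def bas (U : Submodule F V) : Fin (Module.finrank F U) → V :=
  fun k => ((Module.finBasis F U k : U) : V)

lemma bas_li (U : Submodule F V) : LinearIndependent F (bas U) :=
  (Module.finBasis F U).linearIndependent.map' U.subtype (Submodule.ker_subtype U)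

lemma bas_span (U : Submodule F V) : Submodule.span F (Set.range (bas U)) = U := by
  have h1 : Set.range (bas U) = U.subtype '' Set.range (Module.finBasis F U) := by
    rw [← Set.range_comp]
    rfl
  rw [h1, Submodule.span_image, (Module.finBasis F U).span_eq, Submodule.map_top,
    Submodule.range_subtype]

/-- the exterior product of a basis of `U` -/
noncomputable def w (U : Submodule F V) : ExteriorAlgebra F V :=
  ExteriorAlgebra.ιMulti F (Module.finrank F U) (bas U)

lemma li_append_iff (U W : Submodule F V) :
    LinearIndependent F (Fin.append (bas U) (bas W)) ↔ U ⊓ W = ⊥ := by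
  rw [← linearIndependent_equiv finSumFinEquiv, linearIndependent_sum]
  have h1 : (Fin.append (bas U) (bas W) ∘ finSumFinEquiv) ∘ Sum.inl = bas U := by
    funext i
    simp
  have h2 : (Fin.append (bas U) (bas W) ∘ finSumFinEquiv) ∘ Sum.inr = bas W := by
    funext i
    simp
  rw [h1, h2, bas_span, bas_span, disjoint_iff]
  exact ⟨fun h => h.2.2, fun h => ⟨bas_li U, bas_li W, h⟩⟩

lemma w_mul_eq_zero {U W : Submodule F V} (h : U ⊓ W ≠ ⊥) : w U * w W = 0 := by
  unfold w
  rw [ExteriorAlgebra.ιMulti_mul_ιMulti]
  exact AlternatingMap.map_linearDependent _ _ (fun hli => h ((li_append_iff U W).1 hli))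

omit [FiniteDimensional F V] in
lemma ιMulti_ne_zero {n : ℕ} {x : Fin n → V} (hx : LinearIndependent F x) :
    ExteriorAlgebra.ιMulti F n x ≠ 0 := by
  have h1 := exteriorPower.ιMulti_family_linearIndependent_field (n := n) hx
  have h2 := h1.ne_zero (Set.powersetCard.ofFinEmbEquiv (RelEmbedding.refl (· ≤ ·)))
  intro h
  apply h2
  apply Subtype.ext
  rw [exteriorPower.ιMulti_family_apply_coe]
  unfold ExteriorAlgebra.ιMulti_family
  rw [Equiv.symm_apply_apply]
  exact h

lemma w_mul_ne_zero {U W : Submodule F V} (h : U ⊓ W = ⊥) : w U * w W ≠ 0 := by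
  unfold w
  rw [ExteriorAlgebra.ιMulti_mul_ιMulti]
  exact ιMulti_ne_zero ((li_append_iff U W).2 h)

lemma w_li {ι : Type} [Fintype ι] [LinearOrder ι] (A B : ι → Submodule F V)
    (h1 : ∀ i, A i ⊓ B i = ⊥) (h2 : ∀ i j, i < j → A i ⊓ B j ≠ ⊥) :
    LinearIndependent F (fun i => w (A i)) := by
  classical
  rw [Fintype.linearIndependent_iff]
  intro g hg
  by_contra hcon
  push Not at hcon
  have hne : (Finset.univ.filter (fun i => g i ≠ 0)).Nonempty := by
    obtain ⟨i, hi⟩ := hcon
    exact ⟨i, by simpa using hi⟩
  obtain ⟨j, hj, hmax⟩ := Finset.exists_max_image _ (fun i : ι => i) hne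
  simp only [Finset.mem_filter, Finset.mem_univ, true_and] at hj hmax
  have h3 : (∑ i, g i • w (A i)) * w (B j) = 0 := by rw [hg, zero_mul]
  rw [Finset.sum_mul, Finset.sum_eq_single j] at h3
  · rw [smul_mul_assoc, smul_eq_zero] at h3
    rcases h3 with h3 | h3
    · exact hj h3
    · exact w_mul_ne_zero (h1 j) h3
  · intro i _ hij
    rw [smul_mul_assoc]
    by_cases hgi : g i = 0
    · rw [hgi, zero_smul]
    · have hlt : i < j := lt_of_le_of_ne (hmax i hgi) hij
      rw [w_mul_eq_zero (h2 i j hlt), smul_zero]
  · intro h
    exact absurd (Finset.mem_univ j) h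

/-- the skew bound with arbitrary (possibly zero) subspaces -/
lemma card_le {ι : Type} [Fintype ι] [LinearOrder ι] (A B : ι → Submodule F V)
    (h1 : ∀ i, A i ⊓ B i = ⊥) (h2 : ∀ i j, i < j → A i ⊓ B j ≠ ⊥) :
    Fintype.card ι ≤ 2 ^ Module.finrank F V := by
  have hli := w_li A B h1 h2
  have hb := (Module.finBasis F V).ExteriorAlgebra
  have : Module.Finite F (ExteriorAlgebra F V) := Module.Finite.of_basis hb
  have h3 := hli.fintype_card_le_finrank
  rw [Module.finrank_eq_card_basis hb, Fintype.card_finset, Fintype.card_fin] at h3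
  exact h3

/-- For every field `F`, every `n` and every sequence of `m` pairs `(A i, B i)` of nonzero
subspaces of `F ^ (n + 1)` with `A i ∩ B i = 0` for all `i` and `A i ∩ B j ≠ 0` for `i < j`, one
has `m ≤ 2 ^ (n + 1) - 2`. -/
theorem result : ∀ (F : Type u) [Field F] (n m : ℕ)
    (A B : Fin m → Submodule F (Fin (n + 1) → F)),
    (∀ i, A i ≠ ⊥) → (∀ i, B i ≠ ⊥) → (∀ i, A i ⊓ B i = ⊥) →
    (∀ i j, i < j → A i ⊓ B j ≠ ⊥) → m ≤ 2 ^ (n + 1) - 2 := by
  intro F _ n m A B hA hB h1 h2
  have htop : (⊤ : Submodule F (Fin (n + 1) → F)) ≠ ⊥ := top_ne_bot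
  let A' : Fin (m + 1 + 1) → Submodule F (Fin (n + 1) → F) :=
    Fin.cons ⊤ (Fin.snoc (α := fun _ => Submodule F (Fin (n + 1) → F)) A ⊥)
  let B' : Fin (m + 1 + 1) → Submodule F (Fin (n + 1) → F) :=
    Fin.cons ⊥ (Fin.snoc (α := fun _ => Submodule F (Fin (n + 1) → F)) B ⊤)
  have key : Fintype.card (Fin (m + 1 + 1)) ≤ 2 ^ Module.finrank F (Fin (n + 1) → F) := by
    refine card_le A' B' ?_ ?_
    · intro i
      refine Fin.cases ?_ (fun i => ?_) i
      · simp [A', B']
      · simp only [A', B', Fin.cons_succ]
        refine Fin.lastCases ?_ (fun i => ?_) i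
        · simp
        · simp only [Fin.snoc_castSucc]
          exact h1 i
    · intro i j
      refine Fin.cases ?_ (fun i => ?_) i
      · refine Fin.cases ?_ (fun j => ?_) j
        · intro h
          exact absurd h (lt_irrefl _)
        · intro _
          simp only [A', B', Fin.cons_succ, Fin.cons_zero, top_inf_eq]
          refine Fin.lastCases ?_ (fun j => ?_) j
          · simp only [Fin.snoc_last]
            exact htop
          · simp only [Fin.snoc_castSucc]
            exact hB j
      · refine Fin.cases ?_ (fun j => ?_) j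
        · intro h
          exact absurd h (Fin.not_lt_zero _)
        · rw [Fin.succ_lt_succ_iff]
          simp only [A', B', Fin.cons_succ]
          refine Fin.lastCases ?_ (fun i => ?_) i
          · intro h
            exact absurd h (not_lt.2 (Fin.le_last j))
          · refine Fin.lastCases ?_ (fun j => ?_) j
            · intro _
              simp only [Fin.snoc_castSucc, Fin.snoc_last, inf_top_eq]
              exact hA i
            · intro h
              simp only [Fin.snoc_castSucc]
              exact h2 i j (Fin.castSucc_lt_castSucc_iff.1 h)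
  rw [Fintype.card_fin, Module.finrank_fin_fun] at key
  omega

end Pool.Agent.Results.MP_59f694_co.CrossIntersecting
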